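import Pool.Agent.helper3.XT.Spec

set_option autoImplicit false
set_option linter.unusedVariables false

namespace Pool.Agent.XT

open Finset SimpleGraph

private theorem NCO_acyc {V : Type} (u v : V) :
    (SimpleGraph.fromEdgeSet {s(u, v)} : SimpleGraph V).IsAcyclic := by
  classical
  intro w p hp
  have h3 := hp.three_le_length
  have h4 : p.edges.Nodup := hp.isTrail.edges_nodup
  have h5 : ∀ e ∈ p.edges, e = s(u, v) := by
    intro e he
    have h6 := p.edges_subset_edgeSet he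
    rw [SimpleGraph.edgeSet_fromEdgeSet] at h6
    exact h6.1
  have h6 : p.edges.toFinset ⊆ {s(u, v)} := by
    intro e he
    rw [List.mem_toFinset] at he
    rw [Finset.mem_singleton]
    exact h5 e he
  have h7 := Finset.card_le_card h6
  rw [List.toFinset_card_of_nodup h4, SimpleGraph.Walk.length_edges, Finset.card_singleton] at h7
  omega

private theorem NCO_pos (hMBA : MBA_stmt) (n : ℕ) (hn : 2 ≤ n) : 1 ≤ exF n V3F F3 := by
  have hne : (⟨0, by omega⟩ : Fin n) ≠ ⟨1, by omega⟩ := by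
    intro h
    exact absurd (Fin.mk.inj h) (by norm_num)
  unfold exF
  refine le_csSup ?_ ?_
  · refine ⟨Nat.card (Sym2 (Fin n)), ?_⟩
    rintro m ⟨G, -, rfl⟩
    rw [← Set.ncard_univ]
    exact Set.ncard_le_ncard (Set.subset_univ _) Set.finite_univ
  · refine ⟨SimpleGraph.fromEdgeSet {s((⟨0, by omega⟩ : Fin n), ⟨1, by omega⟩)}, ?_, ?_⟩
    · rintro i ⟨f⟩
      exact (hMBA i).2 ((NCO_acyc _ _).comap f.toHom f.injective)
    · rw [SimpleGraph.edgeSet_fromEdgeSet]
      have : ({s((⟨0, by omega⟩ : Fin n), ⟨1, by omega⟩)} \ Sym2.diagSet : Set (Sym2 (Fin n))) =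
          {s((⟨0, by omega⟩ : Fin n), ⟨1, by omega⟩)} := by
        ext e
        simp only [Set.mem_sdiff, Set.mem_singleton_iff, and_iff_left_iff_imp]
        rintro rfl
        rw [Sym2.mem_diagSet, Sym2.mk_isDiag_iff]
        exact hne
      rw [this, Set.ncard_singleton]

theorem NCO (hMBA : MBA_stmt) (hHOS : HOS_stmt) (hCYG : CYG_stmt) (hHST : GL.HST_stmt)
    (hSCL : GL.SCL_stmt) : NCO_stmt := by
  rintro ⟨c, hc, N, hN⟩ hcomp
  obtain ⟨i, C, N', hi⟩ := hcomp 2 V3F F3 hMBA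
  have h1 : Filter.Tendsto (fun n : ℕ => (n : ℝ) ^ (1 / 39 : ℝ)) Filter.atTop Filter.atTop :=
    (tendsto_rpow_atTop (by norm_num)).comp tendsto_natCast_atTop_atTop
  obtain ⟨n, ⟨h2, h3⟩, h4⟩ := ((h1.eventually_gt_atTop ((C : ℝ) / c)).and
    (Filter.eventually_ge_atTop (max (max N N') 2))).and (Filter.eventually_ge_atTop 0) |>.exists
  have hnN : N ≤ n := le_trans (le_trans (le_max_left _ _) (le_max_left _ _)) h3
  have hnN' : N' ≤ n := le_trans (le_trans (le_max_right _ _) (le_max_left _ _)) h3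
  have hn2 : 2 ≤ n := le_trans (le_max_right _ _) h3
  have h5 := hN n hnN i
  have h6 := hi n hnN'
  have h7 := NCO_pos hMBA n hn2
  have h8 : (extremalNumber n (F3 i) : ℝ) ≤ (C : ℝ) * (exF n V3F F3 : ℝ) := by exact_mod_cast h6
  have h9 : (1 : ℝ) ≤ (exF n V3F F3 : ℝ) := by exact_mod_cast h7
  rw [div_lt_iff₀ hc] at h2
  nlinarith

end Pool.Agent.XT
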